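import Pool.Agent.R772.LV3
import Pool.Agent.TH340.FF.LH

/-!
# Energy equality and the Lamb vector

The energy equality holds for a weak solution `u` of the Navier-Stokes equations in an arbitrary
open set `Ω ⊆ ℝ³` (no energy inequality is assumed) if at almost every time `t` the Lamb vector
`ω × u`, `ω = curl u`, is, modulo a gradient `P`, controlled in all balls of radius `ρ(t)` with
center in `Ω`: in each ball one of the following holds, where `K` is an arbitrary constant (not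
small compared to the viscosity):
* `|ω × u + P| ≤ (K / |x - y| + √B(t)) |ω|` for some point `y`; for `P = 0` this says that the
  component of the velocity perpendicular to the vorticity is at most `K / |x - y| + √B(t)` (where
  `ω ≠ 0`); there is no condition on the component of the velocity parallel to the vorticity, and
  no condition where `ω = 0`;
* `|ω × u + P| ≤ √(K W + B(t)) h + g` with a form bounded potential `W` (which may depend on the
  ball), and with functions `h`, `g` (which do not) such that `‖h‖² ≤ K ‖∇u(t)‖² + b(t)`,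
  `‖g‖ ≤ b(t)`.
Here `P` is a vector field orthogonal to the divergence free test fields, it depends only on the
time and need not have any other bound; `B + 1 / ρ²` and `b` are integrable functions of time. At
times with `‖u(t)‖⁴_{L⁴(Ω)} ≤ b(t)` no other condition is needed.
-/

set_option autoImplicit false

open MeasureTheory Set
open scoped InnerProductSpace ENNReal ContDiff

namespace Pool.Agent.Results.MP_a38b17_an.LambVector

open H772R2.NS.Pub Pool.Agent.R772.LV Pool.Agent.TH340.FF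

/-- Let `u` be a weak solution of the Navier-Stokes equations in an open set `Ω ⊆ ℝ³`
(no energy inequality is assumed), with gradient `G` and force `f`. Let `K > 0` be a number, and
let `B ≥ 0`, `ρ > 0`, `b ≥ 0` be functions of time such that `B + 1 / ρ²` and `b` are
integrable on `(0,T)`. Suppose that for almost every `t ∈ (0,T)` there are `h, g ∈ L²(Ω)` with
`‖h‖² ≤ K ‖G(t)‖² + b(t)` and `‖g‖ ≤ b(t)`, and a gradient `P` in `Ω`, such that
`LambIn (Metric.ball x (ρ t)) K (B t) h g P (u t) (G t)` or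
`PerpIn (Metric.ball x (ρ t)) K (B t) P (u t) (G t)` holds for all `x ∈ Ω`, or
`‖u(t)‖⁴_{L⁴(Ω)} ≤ b(t)`. Then the energy equality holds: the energy defect is zero at all times in
`[0,T]`. -/
theorem result {Ω : Set R3} (hΩ : IsOpen Ω) {ν T K : ℝ}
    (hν : 0 < ν) (hT : 0 < T) (hK : 0 < K)
    {u : ℝ → L2 Ω R3} {G : ℝ → L2 Ω Mat} {f : ℝ → L2 Ω R3} (hu : IsWeakSolution Ω ν T u G f)
    {B ρ b : ℝ → ℝ} (hB : ∀ t, 0 ≤ B t) (hρ : ∀ t, 0 < ρ t) (hb : ∀ t, 0 ≤ b t)
    (hint : IntegrableOn (fun t => B t + 1 / ρ t ^ 2) (Ioo 0 T)) (hintb : IntegrableOn b (Ioo 0 T))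
    (hyp : ∀ᵐ t ∂(volume.restrict (Ioo 0 T)),
      (∃ (h g : L2 Ω ℝ) (P : R3 → R3), ‖h‖ ^ 2 ≤ K * ‖G t‖ ^ 2 + b t ∧ ‖g‖ ≤ b t ∧ IsGrad Ω P ∧
        ∀ x ∈ Ω, LambIn (Metric.ball x (ρ t)) K (B t) h g P (u t) (G t) ∨
          PerpIn (Metric.ball x (ρ t)) K (B t) P (u t) (G t)) ∨
      norm4 (u t) ^ 4 ≤ ENNReal.ofReal (b t)) :
    ∀ t ∈ Icc 0 T, energyDefect ν u G f t = 0 := by
  have h := toNS hu
  obtain ⟨M, hM⟩ := h.bdd
  have hM0 : 0 ≤ M := (norm_nonneg _).trans (hM 0 ⟨le_rfl, hT.le⟩)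
  have hC := Pool.Agent.R772.LI.C0_nonneg
  set k := K + 8 * K ^ 2 with hk
  have hk0 : 0 ≤ k := by positivity
  set κ := M ^ 2 * (1 + 4 * k * Pool.Agent.R772.LI.C0) with hκ
  have hκ0 : 0 ≤ κ := by positivity
  have hq : ∀ t, 0 ≤ B t + 1 / ρ t ^ 2 := fun t => by
    have h1 := hB t
    have h2 := hρ t
    positivity
  have h1 : Integrable (fun t => B t + 1 / ρ t ^ 2) (volume.restrict (Ioo 0 T)) := hint
  have h2 : Integrable b (volume.restrict (Ioo 0 T)) := hintb
  have hint4 : IntegrableOn (fun t => κ * (B t + 1 / ρ t ^ 2) + (1 + M) * b t)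
      (Ioo 0 T) := (h1.const_mul κ).add (h2.const_mul (1 + M))
  refine energy_eq (Ω := (Ω : Set H772R2.NS.E3)) hΩ (a := k + K + 4) hν.le hT (by positivity) h hM
    (b := fun t => κ * (B t + 1 / ρ t ^ 2) + (1 + M) * b t)
    (fun t => by
      have a1 := hq t
      have a2 := hb t
      positivity)
    hint4 ?_
  filter_upwards [hyp, h.grad, ae_restrict_mem measurableSet_Ioo] with t ht hG htI p' hpW hpM
  have hW : (u t, G t) ∈ H772R2.NS.graphW (show Set H772R2.NS.E3 from Ω) :=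
    H772R2.NS.mem_graphW.mpr hG
  have hm : MeasurableSet (show Set H772R2.NS.E3 from Ω) :=
    IsOpen.measurableSet (α := H772R2.NS.E3) hΩ
  have a1 := hq t
  have a2 := hb t
  have a3 := hB t
  have a4 := hρ t
  have h5 : 0 ≤ ‖p'.2‖ ^ 2 := by positivity
  have h5' : 0 ≤ ‖(show H772R2.NS.L2M (show Set H772R2.NS.E3 from Ω) from G t)‖ ^ 2 := by
    positivity
  rcases ht with ⟨hh, g, P, hhn, hgn, hP, ht⟩ | ht
  · have w := weight (Ω := (show Set H772R2.NS.E3 from Ω))
      (show Lp ℝ 2 ((volume : Measure H772R2.NS.E3).restrict (show Set H772R2.NS.E3 from Ω))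
        from hh) (G t)
    have key := lamb_graph (Ω := (show Set H772R2.NS.E3 from Ω)) hm (κ := k) (β := 2 * B t)
      (ρ := ρ t) hk0 (by positivity) a4
      (h := fun x => |hh.fn x| + 2 * ‖((G t).fn x : H772R2.NS.M3)‖) w.1
      (show Lp ℝ 2 ((volume : Measure H772R2.NS.E3).restrict (show Set H772R2.NS.E3 from Ω))
        from g) hW (gr_of hP) (fun x hx => lb_of hK a3 (ht x hx)) hpW
    have w2 : ∫ x in (show Set H772R2.NS.E3 from Ω),
        (|hh.fn x| + 2 * ‖((G t).fn x : H772R2.NS.M3)‖) ^ 2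
        ≤ 2 * ‖hh‖ ^ 2 + 8 * ‖(show H772R2.NS.L2M (show Set H772R2.NS.E3 from Ω) from G t)‖ ^ 2 :=
      w.2
    have hhn' : ‖hh‖ ^ 2
        ≤ K * ‖(show H772R2.NS.L2M (show Set H772R2.NS.E3 from Ω) from G t)‖ ^ 2 + b t := hhn
    have h3 : ‖p'.1‖ ^ 2 ≤ M ^ 2 := pow_le_pow_left₀ (norm_nonneg _) hpM 2
    have h6 : (2 * B t / 2 + 4 * k * Pool.Agent.R772.LI.C0 / ρ t ^ 2) * ‖p'.1‖ ^ 2
        ≤ κ * (B t + 1 / ρ t ^ 2) := by
      have e1 : κ * (B t + 1 / ρ t ^ 2)
          = (2 * B t / 2 + 4 * k * Pool.Agent.R772.LI.C0 / ρ t ^ 2) * M ^ 2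
            + M ^ 2 * (4 * k * Pool.Agent.R772.LI.C0 * B t + 1 / ρ t ^ 2) := by
        rw [hκ]
        ring
      have e2 : 0 ≤ M ^ 2 * (4 * k * Pool.Agent.R772.LI.C0 * B t + 1 / ρ t ^ 2) := by
        positivity
      have e3 : 0 ≤ 2 * B t / 2 + 4 * k * Pool.Agent.R772.LI.C0 / ρ t ^ 2 := by positivity
      have e4 := mul_le_mul_of_nonneg_left h3 e3
      linarith
    have h7 : ‖(show Lp ℝ 2 ((volume : Measure H772R2.NS.E3).restrict
        (show Set H772R2.NS.E3 from Ω)) from g)‖ * ‖p'.1‖ ≤ b t * M :=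
      mul_le_mul hgn hpM (norm_nonneg _) a2
    have h8 : 0 ≤ ‖p'.2‖ ^ 2 * (K + 4) := by positivity
    have h9 : 0 ≤ k * ‖(show H772R2.NS.L2M (show Set H772R2.NS.E3 from Ω) from G t)‖ ^ 2 := by
      positivity
    linarith
  · have h1 := H772R2.NS.enorm_tensL hm hW
    have h2 : ‖H772R2.NS.tensL (Ω := (show Set H772R2.NS.E3 from Ω)) (u t)‖ ^ 2 ≤ b t := by
      have h3 : ‖H772R2.NS.tensL (Ω := (show Set H772R2.NS.E3 from Ω)) (u t)‖ₑ ^ 2
          ≤ ENNReal.ofReal (b t) := by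
        rw [h1, ← pow_mul]
        exact ht
      rw [← ofReal_norm, ← ENNReal.ofReal_pow (norm_nonneg _)] at h3
      exact (ENNReal.ofReal_le_ofReal_iff a2).1 h3
    have h4 := abs_real_inner_le_norm (H772R2.NS.tensL (Ω := (show Set H772R2.NS.E3 from Ω)) (u t))
      p'.2
    have h6 : ‖H772R2.NS.tensL (Ω := (show Set H772R2.NS.E3 from Ω)) (u t)‖ * ‖p'.2‖
        ≤ (‖H772R2.NS.tensL (Ω := (show Set H772R2.NS.E3 from Ω)) (u t)‖ ^ 2 + ‖p'.2‖ ^ 2) / 2 := by
      nlinarith [sq_nonneg (‖H772R2.NS.tensL (Ω := (show Set H772R2.NS.E3 from Ω)) (u t)‖ - ‖p'.2‖)]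
    have h7 : 0 ≤ (k + K + 3) * ‖p'.2‖ ^ 2 := by positivity
    have h7' : 0 ≤ (k + K + 4)
      * ‖(show H772R2.NS.L2M (show Set H772R2.NS.E3 from Ω) from G t)‖ ^ 2 := by positivity
    have h8 : 0 ≤ κ * (B t + 1 / ρ t ^ 2) := by positivity
    have h9 : 0 ≤ M * b t := by positivity
    linarith

end Pool.Agent.Results.MP_a38b17_an.LambVector
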