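import Pool.Agent.R772.EE2

/-!
# Energy equality from one-sided bounds in small balls

The energy equality holds for a weak solution `u` of the Navier-Stokes equations in an arbitrary
open set `Ω ⊆ ℝ³` (no energy inequality is assumed) if at almost every time `t`, in each
ball of radius `ρ(t)` with center in `Ω`, one of the following holds for some point `y`:
* `ξ·∇u(x) ξ ≥ -(K / |x - y|² + B(t)) |ξ|²` for all `ξ`;
* `ξ·∇u(x) ξ ≤ (K / |x - y|² + B(t)) |ξ|²` for all `ξ`;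
* `|u(x) - (a + A x)| ≤ K / |x - y| + √(K B(t))` for some rigid motion `a + A x`;
* `u` is in the ball the sum of a field with the form of the strain bounded by
  `K ∫ |∇φ|² + B(t) ∫ |φ|²`, and of a field with `|v|² ≤ K² W + K B(t)`, `W` form bounded;
or if `‖u(t)‖⁴_{L⁴(Ω)} ≤ b(t)`. Here `K` is an arbitrary constant (not small compared to the
viscosity), and `B + 1 / ρ²` and `b` are integrable functions of time. The choice between the
alternatives (in particular the sign of the strain which is controlled), the point `y` and the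
rigid motion depend on the ball and on time in an arbitrary way.
-/

set_option autoImplicit false

open MeasureTheory Set
open scoped InnerProductSpace ENNReal ContDiff

namespace Pool.Agent.Results.MP_a38b17_an.LocalOneSided

open H772R2.NS.Pub Pool.Agent.R772.EE Pool.Agent.TH340.FF

/-- Let `u` be a weak solution of the Navier-Stokes equations in an open set `Ω ⊆ ℝ³`
(no energy inequality is assumed), with gradient `G` and force `f`. Let `K > 0` be a number, and
let `B ≥ 0`, `ρ > 0`, `b ≥ 0` be functions of time such that `B + 1 / ρ²` and `b` are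
integrable on `(0,T)`. Suppose that for almost every `t ∈ (0,T)`, the condition
`LocallyControlled (Metric.ball x (ρ t)) K (B t) (u t) (G t)` holds for all `x ∈ Ω`, or
`‖u(t)‖⁴_{L⁴(Ω)} ≤ b(t)`. Then the energy equality holds: the energy defect is zero at all times in
`[0,T]`. -/
theorem result {Ω : Set R3} (hΩ : IsOpen Ω) {ν T K : ℝ}
    (hν : 0 < ν) (hT : 0 < T) (hK : 0 < K)
    {u : ℝ → L2 Ω R3} {G : ℝ → L2 Ω Mat} {f : ℝ → L2 Ω R3} (hu : IsWeakSolution Ω ν T u G f)
    {B ρ b : ℝ → ℝ} (hB : ∀ t, 0 ≤ B t) (hρ : ∀ t, 0 < ρ t) (hb : ∀ t, 0 ≤ b t)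
    (hint : IntegrableOn (fun t => B t + 1 / ρ t ^ 2) (Ioo 0 T)) (hintb : IntegrableOn b (Ioo 0 T))
    (hyp : ∀ᵐ t ∂(volume.restrict (Ioo 0 T)),
      (∀ x ∈ Ω, LocallyControlled (Metric.ball x (ρ t)) K (B t) (u t) (G t)) ∨
      norm4 (u t) ^ 4 ≤ ENNReal.ofReal (b t)) :
    ∀ t ∈ Icc 0 T, energyDefect ν u G f t = 0 := by
  have h := toNS hu
  obtain ⟨M, hM⟩ := h.bdd
  have hM0 : 0 ≤ M := (norm_nonneg _).trans (hM 0 ⟨le_rfl, hT.le⟩)
  have hC := Pool.Agent.R772.LI.C0_nonneg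
  set κ := 3 + 1536 * K * Pool.Agent.R772.LI.C0 with hκ
  have hκ0 : 0 ≤ κ := by positivity
  have hq : ∀ t, 0 ≤ B t + 1 / ρ t ^ 2 := fun t => by
    have h1 := hB t
    have h2 := hρ t
    positivity
  have h1 : Integrable (fun t => B t + 1 / ρ t ^ 2) (volume.restrict (Ioo 0 T)) := hint
  have h2 : Integrable b (volume.restrict (Ioo 0 T)) := hintb
  have hint4 : IntegrableOn (fun t => 2 * M ^ 2 * κ * (B t + 1 / ρ t ^ 2) + b t)
      (Ioo 0 T) := (h1.const_mul (2 * M ^ 2 * κ)).add h2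
  refine energy_eq (Ω := (Ω : Set H772R2.NS.E3)) hΩ (a := 48 * K + 1) hν.le hT (by positivity) h hM
    (b := fun t => 2 * M ^ 2 * κ * (B t + 1 / ρ t ^ 2) + b t)
    (fun t => by
      have a1 := hq t
      have a2 := hb t
      positivity)
    hint4 ?_
  filter_upwards [hyp, h.grad, ae_restrict_mem measurableSet_Ioo] with t ht hG htI p' hpW hpM
  have hW : (u t, G t) ∈ H772R2.NS.graphW (show Set H772R2.NS.E3 from Ω) :=
    H772R2.NS.mem_graphW.mpr hG
  have hm : MeasurableSet (show Set H772R2.NS.E3 from Ω) :=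
    IsOpen.measurableSet (α := H772R2.NS.E3) hΩ
  have hut := hM t (Ioo_subset_Icc_self htI)
  have a1 := hq t
  have a2 := hb t
  have a3 := hB t
  have a4 := hρ t
  have h5 : 0 ≤ ‖p'.2‖ ^ 2 := by positivity
  have h5' : 0 ≤ ‖(show H772R2.NS.L2M (show Set H772R2.NS.E3 from Ω) from G t)‖ ^ 2 := by
    positivity
  rcases ht with ht | ht
  · have hf := fun r (hr : r ∈ H772R2.NS.graphW (show Set H772R2.NS.E3 from Ω)) =>
      form_two (Ω := (show Set H772R2.NS.E3 from Ω)) hm (K := 8 * K) (β := 2 * B t) (ρ := ρ t)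
        (by positivity) a4 (by positivity) hW
        (fun x hx => tm_of_local hΩ hK a3 (mem_pub.mp hW) (ht x hx)) hr
    have h1 := polar hm (a := 6 * (8 * K))
      (b := 3 / 2 * (2 * B t) + 192 * (8 * K) * Pool.Agent.R772.LI.C0 / ρ t ^ 2) hW hpW hf
    simp only at h1
    have h2 : ‖(show H772R2.NS.L2V (show Set H772R2.NS.E3 from Ω) from u t)‖ ^ 2 ≤ M ^ 2 :=
      pow_le_pow_left₀ (norm_nonneg _) hut 2
    have h3 : ‖p'.1‖ ^ 2 ≤ M ^ 2 := pow_le_pow_left₀ (norm_nonneg _) hpM 2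
    have h6 : 3 / 2 * (2 * B t) + 192 * (8 * K) * Pool.Agent.R772.LI.C0 / ρ t ^ 2
        ≤ κ * (B t + 1 / ρ t ^ 2) := by
      have e1 : κ * (B t + 1 / ρ t ^ 2)
          = 3 / 2 * (2 * B t) + 192 * (8 * K) * Pool.Agent.R772.LI.C0 / ρ t ^ 2
            + (1536 * K * Pool.Agent.R772.LI.C0 * B t + 3 * (1 / ρ t ^ 2)) := by
        rw [hκ]
        ring
      have e2 : 0 ≤ 1536 * K * Pool.Agent.R772.LI.C0 * B t + 3 * (1 / ρ t ^ 2) := by positivity
      linarith
    have h7 : (3 / 2 * (2 * B t) + 192 * (8 * K) * Pool.Agent.R772.LI.C0 / ρ t ^ 2)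
          * (‖(show H772R2.NS.L2V (show Set H772R2.NS.E3 from Ω) from u t)‖ ^ 2 + ‖p'.1‖ ^ 2)
        ≤ (κ * (B t + 1 / ρ t ^ 2)) * (M ^ 2 + M ^ 2) := by gcongr
    have h8 : (κ * (B t + 1 / ρ t ^ 2)) * (M ^ 2 + M ^ 2)
        = 2 * M ^ 2 * κ * (B t + 1 / ρ t ^ 2) := by ring
    rw [h8] at h7
    linarith
  · have h1 := H772R2.NS.enorm_tensL hm hW
    have h2 : ‖H772R2.NS.tensL (Ω := (show Set H772R2.NS.E3 from Ω)) (u t)‖ ^ 2 ≤ b t := by
      have h3 : ‖H772R2.NS.tensL (Ω := (show Set H772R2.NS.E3 from Ω)) (u t)‖ₑ ^ 2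
          ≤ ENNReal.ofReal (b t) := by
        rw [h1, ← pow_mul]
        exact ht
      rw [← ofReal_norm, ← ENNReal.ofReal_pow (norm_nonneg _)] at h3
      exact (ENNReal.ofReal_le_ofReal_iff a2).1 h3
    have h4 := abs_real_inner_le_norm (H772R2.NS.tensL (Ω := (show Set H772R2.NS.E3 from Ω)) (u t))
      p'.2
    have h6 : ‖H772R2.NS.tensL (Ω := (show Set H772R2.NS.E3 from Ω)) (u t)‖ * ‖p'.2‖
        ≤ (‖H772R2.NS.tensL (Ω := (show Set H772R2.NS.E3 from Ω)) (u t)‖ ^ 2 + ‖p'.2‖ ^ 2) / 2 := by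
      nlinarith [sq_nonneg (‖H772R2.NS.tensL (Ω := (show Set H772R2.NS.E3 from Ω)) (u t)‖ - ‖p'.2‖)]
    have h7 : 0 ≤ 48 * K * (‖(show H772R2.NS.L2M (show Set H772R2.NS.E3 from Ω) from G t)‖ ^ 2
      + ‖p'.2‖ ^ 2) := by positivity
    have h8 : 0 ≤ 2 * M ^ 2 * κ * (B t + 1 / ρ t ^ 2) := by positivity
    linarith

end Pool.Agent.Results.MP_a38b17_an.LocalOneSided
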