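import Pool.Agent.R211.FP.Ee
import Pool.Agent.R211.FP.PubDef2
import Pool.Agent.TH340.FF.LH

/-!
# Energy equality from one-sided bounds of the gradient by Morrey potentials

The energy equality holds for a weak solution `u` of the Navier-Stokes equations in an arbitrary
bounded open set `Ω ⊆ ℝ³` (no energy inequality is assumed) if at almost every time `u(t) = a + w`
in `Ω`, where
* `∫_{B(x,r) ∩ Ω} |a|^{2p} ≤ c^{2p} r^{3-2p}` for all balls with the radius `r ≤ ρ(t)`;
* the weak gradient of `w` in `Ω` has trace zero, and almost everywhere `ξ·∇w ξ ≥ -(V + B(t)) |ξ|²`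
  for all `ξ`, or almost everywhere `ξ·∇w ξ ≤ (V + B(t)) |ξ|²` for all `ξ`, with a function `V` with
  `∫_{B(x,r) ∩ Ω} V₊^p ≤ c^p r^{3-2p}` for the same balls,
or if `‖u(t)‖⁴_{L⁴(Ω)} ≤ b(t)`. Here `p > 1` and `c` are arbitrary constants (`c` is not small
compared to the viscosity), and `B + 1 / ρ²` and `b` are integrable functions of time. There is no
other bound for `w`: only one sign of the strain of `w` is controlled. The condition is invariant
under the scaling of the equations, and it is not known to imply regularity.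

The inequality of Fefferman and Phong gives a form bound
`|∫ v·∇u v| ≤ K ∫ |∇v|² + (K / ρ² + 2 B) ∫ |v|²` for all `v ∈ H¹_{0,σ}(Ω)`, where the other sign of
the strain is controlled by the condition that the trace is zero. The energy equality follows by the
polarisation and the chaining argument of the library (`PairEnergyEquality`).
-/

set_option autoImplicit false

open MeasureTheory Set
open scoped InnerProductSpace ENNReal ContDiff

namespace Pool.Agent.Results.MP_a38b17_an.SemiboundedGradient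

open H772R2.NS.Pub Pool.Agent.R211.FP Pool.Agent.TH340.FF

/-- the form bound in terms of the public definitions -/
theorem pub_abs {Ω : Set R3} (hΩ : IsOpen Ω) (hb : Bornology.IsBounded Ω) {p c ρ β : ℝ}
    (hp : 1 < p) (hc : 0 < c) (hρ : 0 < ρ) (hβ : 0 ≤ β)
    {U : H772R2.NS.L2V (show Set H772R2.NS.E3 from Ω)}
    {G : H772R2.NS.L2M (show Set H772R2.NS.E3 from Ω)}
    (hU : (U, G) ∈ H772R2.NS.graphW (show Set H772R2.NS.E3 from Ω))
    (hs : SemiBounded (Ω := Ω) p c ρ β U)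
    {q : H772R2.NS.L2V (show Set H772R2.NS.E3 from Ω)
      × H772R2.NS.L2M (show Set H772R2.NS.E3 from Ω)}
    (hq : q ∈ H772R2.NS.graphW (show Set H772R2.NS.E3 from Ω)) :
    |⟪H772R2.NS.tensL q.1, G⟫_ℝ| ≤ (kap p * c + kap p ^ 2 * (2 * c)) * ‖q.2‖ ^ 2
      + ((kap p * c + kap p ^ 2 * (2 * c)) / ρ ^ 2 + 2 * β) * ‖q.1‖ ^ 2 := by
  have hm : MeasurableSet (show Set H772R2.NS.E3 from Ω) :=
    IsOpen.measurableSet (α := H772R2.NS.E3) hΩ
  obtain ⟨a, V, W, ⟨ha1, ha2⟩, ⟨hV1, hV2⟩, ⟨hW1, hW2⟩, h3, h4⟩ := hs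
  have hq2 : ∀ (x ξ : H772R2.NS.E3), (∑ i, ∑ j, W i j x * (⟪e i, (ξ : R3)⟫_ℝ * ⟪e j, (ξ : R3)⟫_ℝ))
      = ∑ i, ∑ j, W i j x * (ξ i * ξ j) := by
    intro x ξ
    refine Finset.sum_congr rfl fun i _ => Finset.sum_congr rfl fun j _ => ?_
    congr 1
    congr 1
    · exact H772R2.NS.Pub.inner_e i ξ
    · exact H772R2.NS.Pub.inner_e j ξ
  refine form_abs (Ω := (show Set H772R2.NS.E3 from Ω)) hp hm hb hc hρ hβ
    (a := (a : H772R2.NS.E3 → H772R2.NS.E3)) ha1 (v := (V : H772R2.NS.E3 → ℝ)) hV1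
    (W := (W : Fin 3 → Fin 3 → H772R2.NS.E3 → ℝ)) hW1 hU ha2 hV2 ?_ h3 ?_ hq
  · intro ψ h1 h2 h3 i j
    refine Eq.trans ?_ (hW2 ψ h1 h2 h3 i j)
    refine integral_congr_ae (Filter.Eventually.of_forall fun x => ?_)
    simp only
    congr 1
    refine Eq.trans ?_
      (H772R2.NS.Pub.inner_e i (show H772R2.NS.E3 from (L2.fn (Ω := Ω) (E := R3) U x - a x))).symm
    rfl
  · rcases h4 with h4 | h4
    · left
      filter_upwards [h4] with x hx
      intro ξ
      exact (hx ξ).trans (le_of_eq (hq2 x ξ))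
    · right
      filter_upwards [h4] with x hx
      intro ξ
      exact le_trans (le_of_eq (hq2 x ξ).symm) (hx ξ)

/-- Let `u` be a weak solution of the Navier-Stokes equations in a bounded open set `Ω ⊆ ℝ³`
(no energy inequality is assumed), with gradient `G` and force `f`. Let `p > 1` and `c > 0` be
numbers, and let `B ≥ 0`, `ρ > 0`, `b ≥ 0` be functions of time such that `B + 1 / ρ²` and `b` are
integrable on `(0,T)`. Suppose that for almost every `t ∈ (0,T)` the condition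
`SemiBounded p c (ρ t) (B t) (u t)` holds or `‖u(t)‖⁴_{L⁴(Ω)} ≤ b(t)`. Then the energy equality
holds: the energy defect is zero at all times in `[0,T]`. -/
theorem result {Ω : Set R3} (hΩ : IsOpen Ω) (hbd : Bornology.IsBounded Ω) {ν T p c : ℝ}
    (hν : 0 < ν) (hT : 0 < T) (hp : 1 < p) (hc : 0 < c)
    {u : ℝ → L2 Ω R3} {G : ℝ → L2 Ω Mat} {f : ℝ → L2 Ω R3} (hu : IsWeakSolution Ω ν T u G f)
    {B ρ b : ℝ → ℝ} (hB : ∀ t, 0 ≤ B t) (hρ : ∀ t, 0 < ρ t) (hb : ∀ t, 0 ≤ b t)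
    (hint : IntegrableOn (fun t => B t + 1 / ρ t ^ 2) (Ioo 0 T)) (hintb : IntegrableOn b (Ioo 0 T))
    (hyp : ∀ᵐ t ∂(volume.restrict (Ioo 0 T)), SemiBounded p c (ρ t) (B t) (u t) ∨
      norm4 (u t) ^ 4 ≤ ENNReal.ofReal (b t)) :
    ∀ t ∈ Icc 0 T, energyDefect ν u G f t = 0 := by
  have hk : 0 < kap p := kap_pos hp
  have h := toNS hu
  obtain ⟨M, hM⟩ := h.bdd
  have hM0 : 0 ≤ M := (norm_nonneg _).trans (hM 0 ⟨le_rfl, hT.le⟩)
  set K := kap p * c + kap p ^ 2 * (2 * c) with hK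
  have hK0 : 0 ≤ K := by positivity
  have hq : ∀ t, 0 ≤ B t + 1 / ρ t ^ 2 := fun t => by
    have h1 := hB t
    have h2 := hρ t
    positivity
  have h1 : Integrable (fun t => B t + 1 / ρ t ^ 2) (volume.restrict (Ioo 0 T)) := hint
  have h2 : Integrable b (volume.restrict (Ioo 0 T)) := hintb
  have hint4 : IntegrableOn (fun t => 2 * M ^ 2 * (K + 2) * (B t + 1 / ρ t ^ 2) + b t)
      (Ioo 0 T) := (h1.const_mul (2 * M ^ 2 * (K + 2))).add h2
  have key := energy_eq (Ω := (Ω : Set H772R2.NS.E3)) hΩ (a := K + 1) hν.le hT (by positivity) h hM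
    (b := fun t => 2 * M ^ 2 * (K + 2) * (B t + 1 / ρ t ^ 2) + b t)
    (fun t => by
      have a1 := hq t
      have a2 := hb t
      positivity)
    hint4 (by
    filter_upwards [hyp, h.grad, ae_restrict_mem measurableSet_Ioo] with t ht hG htI p' hpW hpM
    have hW : (u t, G t) ∈ H772R2.NS.graphW (show Set H772R2.NS.E3 from Ω) :=
      H772R2.NS.mem_graphW.mpr hG
    have hm : MeasurableSet (show Set H772R2.NS.E3 from Ω) :=
      IsOpen.measurableSet (α := H772R2.NS.E3) hΩ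
    have hut := hM t (Ioo_subset_Icc_self htI)
    have a1 := hq t
    have a2 := hb t
    have a3 := hB t
    have a4 := hρ t
    have h5 : 0 ≤ ‖p'.2‖ ^ 2 := by positivity
    have h5' : 0 ≤ ‖(show H772R2.NS.L2M (show Set H772R2.NS.E3 from Ω) from G t)‖ ^ 2 := by
      positivity
    rcases ht with ht | ht
    · have hf := fun r (hr : r ∈ H772R2.NS.graphW (show Set H772R2.NS.E3 from Ω)) =>
        pub_abs hΩ hbd hp hc a4 a3 hW ht hr
      have h1 := polar hm (a := K) (b := K / ρ t ^ 2 + 2 * B t) hW hpW hf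
      simp only at h1
      have h2 : ‖(show H772R2.NS.L2V (show Set H772R2.NS.E3 from Ω) from u t)‖ ^ 2 ≤ M ^ 2 :=
        pow_le_pow_left₀ (norm_nonneg _) hut 2
      have h3 : ‖p'.1‖ ^ 2 ≤ M ^ 2 := pow_le_pow_left₀ (norm_nonneg _) hpM 2
      have h6 : K / ρ t ^ 2 + 2 * B t ≤ (K + 2) * (B t + 1 / ρ t ^ 2) := by
        have e1 : (K + 2) * (B t + 1 / ρ t ^ 2)
            = K / ρ t ^ 2 + 2 * B t + (K * B t + 2 * (1 / ρ t ^ 2)) := by ring
        have e2 : 0 ≤ K * B t + 2 * (1 / ρ t ^ 2) := by positivity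
        linarith
      have h7 : (K / ρ t ^ 2 + 2 * B t)
            * (‖(show H772R2.NS.L2V (show Set H772R2.NS.E3 from Ω) from u t)‖ ^ 2 + ‖p'.1‖ ^ 2)
          ≤ ((K + 2) * (B t + 1 / ρ t ^ 2)) * (M ^ 2 + M ^ 2) := by gcongr
      have h8 : ((K + 2) * (B t + 1 / ρ t ^ 2)) * (M ^ 2 + M ^ 2)
          = 2 * M ^ 2 * (K + 2) * (B t + 1 / ρ t ^ 2) := by ring
      rw [h8] at h7
      linarith
    · have h1 := H772R2.NS.enorm_tensL hm hW
      have h2 : ‖H772R2.NS.tensL (Ω := (show Set H772R2.NS.E3 from Ω)) (u t)‖ ^ 2 ≤ b t := by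
        have h3 : ‖H772R2.NS.tensL (Ω := (show Set H772R2.NS.E3 from Ω)) (u t)‖ₑ ^ 2
            ≤ ENNReal.ofReal (b t) := by
          rw [h1, ← pow_mul]
          exact ht
        rw [← ofReal_norm, ← ENNReal.ofReal_pow (norm_nonneg _)] at h3
        exact (ENNReal.ofReal_le_ofReal_iff a2).1 h3
      have h4 := abs_real_inner_le_norm (H772R2.NS.tensL (Ω := (show Set H772R2.NS.E3 from Ω)) (u t))
        p'.2
      have h6 : ‖H772R2.NS.tensL (Ω := (show Set H772R2.NS.E3 from Ω)) (u t)‖ * ‖p'.2‖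
          ≤ (‖H772R2.NS.tensL (Ω := (show Set H772R2.NS.E3 from Ω)) (u t)‖ ^ 2 + ‖p'.2‖ ^ 2) / 2 := by
        nlinarith [sq_nonneg (‖H772R2.NS.tensL (Ω := (show Set H772R2.NS.E3 from Ω)) (u t)‖ - ‖p'.2‖)]
      have h7 : 0 ≤ K * (‖(show H772R2.NS.L2M (show Set H772R2.NS.E3 from Ω) from G t)‖ ^ 2
        + ‖p'.2‖ ^ 2) := by positivity
      have h8 : 0 ≤ 2 * M ^ 2 * (K + 2) * (B t + 1 / ρ t ^ 2) := by positivity
      linarith)
  exact key

end Pool.Agent.Results.MP_a38b17_an.SemiboundedGradient
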