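import Pool.Agent.R211.CW.Cl
import Pool.Agent.TH340.FF.En2
import Pool.Agent.TH340.FF.LH

/-!
# Energy equality from a cone condition on the direction of the vorticity

The energy equality holds for a weak solution `u` of the Navier-Stokes equations in an arbitrary
open set `Ω ⊆ ℝ³` (with force, and no energy inequality is assumed) if at almost every time `t`
there are numbers `K, R > 0` and `σ ∈ (0, 1]` such that in every ball of radius `R` the directions
of the vorticity `ω(t)`, where `|ω| > K`, lie in a cone with the half angle `arccos σ < π/2` (the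
axis of the cone may depend on the ball), and
`(1 / R + K² R⁴) (‖∇u(t)‖² + 1 / R²) ≤ σ⁴ b(t)` with an integrable function `b`. In particular `K`,
`R` and `σ` may be arbitrary constants: there is no condition on the modulus of continuity of the
direction, only large oscillations at the scale `R` are excluded.

The proof: let `U ∈ H¹_{0,σ}(Ω)` be a field with the condition. Fluxes of the vorticity through
level sets of `⟨e, y - x⟩ / |y - x|` (with a cutoff and a regularisation at `x`) vanish up to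
the error of the cutoff, which gives the critical Morrey bound
`∫_{B(x,r)} |ω| ≤ C σ⁻² (K R² + ‖U‖ R^{-1/2}) r` for `r ≤ R / 2` with an absolute constant `C`. The
estimate is stable under the approximation of `U` by divergence free test fields, although the
approximations do not fulfil the cone condition. The Morrey bound of the vorticity gives the bound
`‖U‖_4^4 ≤ C L² (‖∇U‖² + ‖U‖² / R²)`, `L = σ⁻² (K R² + ‖U‖ R^{-1/2})`, by an inequality of
Gagliardo-Nirenberg type for level sets.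
-/

set_option autoImplicit false

open MeasureTheory Set
open scoped InnerProductSpace ENNReal ContDiff

namespace Pool.Agent.Results.MP_a38b17_an.VorticityCones

open H772R2.NS.Pub Pool.Agent.R211.CW Pool.Agent.TH340.FF

/-- The entry `(i, j)` of a matrix: `∂u_i/∂x_j` for the gradient of a field `u`. -/
noncomputable def ent (A : Mat) (i j : Fin 3) : ℝ :=
  (show EuclideanSpace ℝ (Fin 3 × Fin 3) from A) (i, j)

/-- The vorticity of a field with the gradient `A` (the field `e` is the standard basis). -/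
noncomputable def curl (A : Mat) : R3 :=
  (ent A 2 1 - ent A 1 2) • e 0 + (ent A 0 2 - ent A 2 0) • e 1 + (ent A 1 0 - ent A 0 1) • e 2

/-- In every ball of radius `R` there is a unit vector `d` with `σ |ω| ≤ d·ω` almost everywhere
where `|ω| > K`. Here `ω` is the vorticity of a field in `Ω` with the gradient `z`. -/
def InCones {Ω : Set R3} (z : L2 Ω Mat) (σ K R : ℝ) : Prop :=
  ∀ x : R3, ∃ d : R3, ‖d‖ = 1 ∧ ∀ᵐ y ∂(volume.restrict Ω), ‖y - x‖ < R →
    K < ‖curl (z.fn y)‖ → σ * ‖curl (z.fn y)‖ ≤ ⟪d, curl (z.fn y)⟫_ℝ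

theorem curl_eq (A : H772R2.NS.M3) : (curl A : H772R2.NS.E3) = crl A := by
  show ((A (2, 1) - A (1, 2)) • (EuclideanSpace.single 0 (1 : ℝ) : H772R2.NS.E3)
    + (A (0, 2) - A (2, 0)) • (EuclideanSpace.single 1 (1 : ℝ) : H772R2.NS.E3)
    + (A (1, 0) - A (0, 1)) • (EuclideanSpace.single 2 (1 : ℝ) : H772R2.NS.E3)) = crl A
  ext i
  fin_cases i <;> simp [crl]

theorem cones {Ω : Set R3} {z : L2 Ω Mat} {σ K R : ℝ} (h : InCones z σ K R) :
    CoE (show Set H772R2.NS.E3 from Ω)
      (show H772R2.NS.L2M (show Set H772R2.NS.E3 from Ω) from z) σ K R := by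
  intro x
  obtain ⟨d, hd, h1⟩ := h x
  refine ⟨d, hd, ?_⟩
  filter_upwards [h1] with y hy h2 h3
  have e1 := curl_eq ((show H772R2.NS.L2M (show Set H772R2.NS.E3 from Ω) from z) y)
  rw [← e1] at h3 ⊢
  refine hy ?_ h3
  rw [Metric.mem_ball, dist_eq_norm] at h2
  exact h2

/-- Let `u` be a weak solution of the Navier-Stokes equations in an open set `Ω ⊆ ℝ³` (no energy
inequality is assumed), with gradient `G` and force `f`. Let `b ≥ 0` be integrable on `(0,T)`.
Suppose that for almost every `t ∈ (0,T)` there are `K, R > 0` and `σ ∈ (0,1]` with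
`(1 / R + K² R⁴) (‖G(t)‖² + 1 / R²) ≤ σ⁴ b(t)` such that `InCones (G t) σ K R` holds, or
`‖u(t)‖⁴_{L⁴(Ω)} ≤ b(t)`. Then the energy equality holds: the energy defect is zero at all times in
`[0,T]`. -/
theorem result {Ω : Set R3} (hΩ : IsOpen Ω) {ν T : ℝ} (hν : 0 < ν) (hT : 0 < T)
    {u : ℝ → L2 Ω R3} {G : ℝ → L2 Ω Mat} {f : ℝ → L2 Ω R3} (hu : IsWeakSolution Ω ν T u G f)
    {b : ℝ → ℝ} (hb : ∀ t, 0 ≤ b t) (hint : IntegrableOn b (Ioo 0 T))
    (hyp : ∀ᵐ t ∂(volume.restrict (Ioo 0 T)),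
      (∃ K R σ : ℝ, 0 < K ∧ 0 < R ∧ 0 < σ ∧ σ ≤ 1 ∧ InCones (G t) σ K R ∧
        (1 / R + K ^ 2 * R ^ 4) * (‖G t‖ ^ 2 + 1 / R ^ 2) ≤ σ ^ 4 * b t) ∨
      norm4 (u t) ^ 4 ≤ ENNReal.ofReal (b t)) :
    ∀ t ∈ Icc 0 T, energyDefect ν u G f t = 0 := by
  have h := toNS hu
  obtain ⟨M, hM⟩ := h.bdd
  have hM0 : 0 ≤ M := (norm_nonneg _).trans (hM 0 ⟨le_rfl, hT.le⟩)
  have hv := Pool.Agent.R210.v3_pos
  have hK4 := K4_pos
  have hCf := Pool.Agent.R211.CE.Cf_pos
  set C : ℝ := 3 * K4 * (Pool.Agent.R211.CE.Cf ^ 2 * (8 + 2 * Pool.Agent.R210.v3 * M ^ 2))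
    * (1 + M ^ 2) + 1 with hC
  have hC1 : 1 ≤ C := by
    rw [hC]
    have : 0 ≤ 3 * K4 * (Pool.Agent.R211.CE.Cf ^ 2 * (8 + 2 * Pool.Agent.R210.v3 * M ^ 2))
      * (1 + M ^ 2) := by positivity
    linarith
  have h2 : Integrable b (volume.restrict (Ioo 0 T)) := hint
  have key := energy_eq (Ω := (Ω : Set H772R2.NS.E3)) hΩ (a := 1) hν.le hT (by positivity) h hM
    (b := fun t => C * b t) (fun t => mul_nonneg (by linarith) (hb t)) (h2.const_mul C) (by
    filter_upwards [hyp, h.grad, ae_restrict_mem measurableSet_Ioo] with t ht hG htI p' hpW hpM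
    have hW : (u t, G t) ∈ H772R2.NS.graphW (show Set H772R2.NS.E3 from Ω) :=
      H772R2.NS.mem_graphW.mpr hG
    have hm : MeasurableSet (show Set H772R2.NS.E3 from Ω) :=
      IsOpen.measurableSet (α := H772R2.NS.E3) hΩ
    have hut := hM t (Ioo_subset_Icc_self htI)
    have a2 := hb t
    have h5 : 0 ≤ ‖p'.2‖ ^ 2 := by positivity
    have h5' : 0 ≤ ‖(show H772R2.NS.L2M (show Set H772R2.NS.E3 from Ω) from G t)‖ ^ 2 := by
      positivity
    have h7 : b t ≤ C * b t := le_mul_of_one_le_left a2 hC1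
    have h8 : ‖H772R2.NS.tensL (Ω := (show Set H772R2.NS.E3 from Ω)) (u t)‖ ^ 2 ≤ C * b t := by
      rcases ht with ⟨K, R, σ, hK, hR, hσ, hσ1, hco, hle⟩ | ht
      · have h1 := four_cone hm hW hσ hσ1 hK hR (cones hco)
        refine h1.trans ?_
        have h3 := Lq_sq (σ := σ) (M := M) hσ hK hR (norm_nonneg _) hut
        set a := ‖(show H772R2.NS.L2V (show Set H772R2.NS.E3 from Ω) from u t)‖ with ha
        set g := ‖(show H772R2.NS.L2M (show Set H772R2.NS.E3 from Ω) from G t)‖ with hg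
        have h4 : a ^ 2 / R ^ 2 + g ^ 2 ≤ (1 + M ^ 2) * (g ^ 2 + 1 / R ^ 2) := by
          have q1 : a ^ 2 ≤ M ^ 2 := pow_le_pow_left₀ (norm_nonneg _) hut 2
          have q2 : a ^ 2 / R ^ 2 ≤ M ^ 2 * (1 / R ^ 2) := by
            rw [mul_one_div]
            exact div_le_div_of_nonneg_right q1 (by positivity)
          have q3 : 0 ≤ M ^ 2 * g ^ 2 + 1 / R ^ 2 := by positivity
          linarith
        have h6 : (1 / R + K ^ 2 * R ^ 4) * (g ^ 2 + 1 / R ^ 2) ≤ σ ^ 4 * b t := hle
        calc 3 * K4 * Lq σ (2 * K) R a 0 ^ 2 * (a ^ 2 / R ^ 2 + g ^ 2)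
            ≤ 3 * K4 * ((Pool.Agent.R211.CE.Cf / σ ^ 2) ^ 2
              * ((8 + 2 * Pool.Agent.R210.v3 * M ^ 2) * (1 / R + K ^ 2 * R ^ 4)))
              * ((1 + M ^ 2) * (g ^ 2 + 1 / R ^ 2)) := by
              refine mul_le_mul (mul_le_mul_of_nonneg_left h3 (by positivity)) h4
                (by positivity) (by positivity)
          _ = 3 * K4 * (Pool.Agent.R211.CE.Cf ^ 2 * (8 + 2 * Pool.Agent.R210.v3 * M ^ 2))
              * (1 + M ^ 2) * (((1 / R + K ^ 2 * R ^ 4) * (g ^ 2 + 1 / R ^ 2)) / σ ^ 4) := by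
              field_simp
          _ ≤ 3 * K4 * (Pool.Agent.R211.CE.Cf ^ 2 * (8 + 2 * Pool.Agent.R210.v3 * M ^ 2))
              * (1 + M ^ 2) * b t := by
              refine mul_le_mul_of_nonneg_left ?_ (by positivity)
              rw [div_le_iff₀ (by positivity)]
              linarith
          _ ≤ C * b t := mul_le_mul_of_nonneg_right (by rw [hC]; linarith) a2
      · have h1 := H772R2.NS.enorm_tensL hm hW
        refine le_trans ?_ h7
        have h3 : ‖H772R2.NS.tensL (Ω := (show Set H772R2.NS.E3 from Ω)) (u t)‖ₑ ^ 2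
            ≤ ENNReal.ofReal (b t) := by
          rw [h1, ← pow_mul]
          exact ht
        rw [← ofReal_norm, ← ENNReal.ofReal_pow (norm_nonneg _)] at h3
        exact (ENNReal.ofReal_le_ofReal_iff a2).1 h3
    have h4 := abs_real_inner_le_norm (H772R2.NS.tensL (Ω := (show Set H772R2.NS.E3 from Ω)) (u t))
      p'.2
    have h6 : ‖H772R2.NS.tensL (Ω := (show Set H772R2.NS.E3 from Ω)) (u t)‖ * ‖p'.2‖
        ≤ (‖H772R2.NS.tensL (Ω := (show Set H772R2.NS.E3 from Ω)) (u t)‖ ^ 2 + ‖p'.2‖ ^ 2) / 2 := by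
      nlinarith [sq_nonneg (‖H772R2.NS.tensL (Ω := (show Set H772R2.NS.E3 from Ω)) (u t)‖ - ‖p'.2‖)]
    have h9 : 0 ≤ C * b t := mul_nonneg (by linarith) a2
    linarith)
  exact key

end Pool.Agent.Results.MP_a38b17_an.VorticityCones
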